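import Mathlib

/-!
# Zero sums of `p` distinct vectors of `F_p^n`: bound by the number of monomials of low degree
-/

namespace Pool.Agent.EGZ4

open Finset

/-- Exponent vectors `m` with entries `< p` and `p * (m_1 + ... + m_n) ≤ (p - 1) * n`. -/
def low (p n : ℕ) : Finset (Fin n → Fin p) :=
  univ.filter (fun m => p * ∑ i, (m i : ℕ) ≤ (p - 1) * n)

/-! ### Greedy choice of disjoint spanning families -/

section Greedy

variable {K V ι : Type*} [Field K] [DecidableEq V] [Fintype V] [Fintype ι]

lemma exists_small_span (e : V → ι → K) (R : Finset V) :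
    ∃ B ⊆ R, B.card ≤ Fintype.card ι ∧
      ∀ x ∈ R, ∃ c : V → K, (∀ z, c z ≠ 0 → z ∈ B) ∧ ∑ z, c z • e z = e x := by
  classical
  obtain ⟨κ, a, ha, hspan, hli⟩ := exists_linearIndependent' K (fun z : R => e z.1)
  have : Finite κ := Finite.of_injective a ha
  have : Fintype κ := Fintype.ofFinite κ
  have hcard : Fintype.card κ ≤ Fintype.card ι := by
    have h := hli.fintype_card_le_finrank
    rwa [Module.finrank_fintype_fun_eq_card] at h
  have hinj : Function.Injective (fun k => (a k).1) := fun k k' h => ha (Subtype.ext h)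
  refine ⟨univ.image (fun k => (a k).1), ?_, ?_, ?_⟩
  · intro z hz
    obtain ⟨k, _, rfl⟩ := mem_image.1 hz
    exact (a k).2
  · exact card_image_le.trans (by rw [card_univ]; exact hcard)
  · intro x hx
    have h1 : e x ∈ Submodule.span K (Set.range ((fun z : R => e z.1) ∘ a)) := by
      rw [hspan]
      exact Submodule.subset_span ⟨⟨x, hx⟩, rfl⟩
    obtain ⟨c, hc⟩ := (Submodule.mem_span_range_iff_exists_fun K).1 h1
    refine ⟨fun z => ∑ k, if (a k).1 = z then c k else 0, ?_, ?_⟩
    · intro z hz
      by_contra hcon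
      apply hz
      apply sum_eq_zero
      intro k _
      rw [if_neg]
      intro h
      exact hcon (mem_image.2 ⟨k, mem_univ _, h⟩)
    · rw [← hc]
      simp_rw [sum_smul]
      rw [sum_comm]
      apply sum_congr rfl
      intro k _
      rw [sum_eq_single (a k).1]
      · rw [if_pos rfl]
        rfl
      · intro z _ hz
        rw [if_neg hz.symm, zero_smul]
      · intro h
        exact absurd (mem_univ _) h

/-- In a set with more than `N * card ι` elements there are a point `x` and `N` disjointly supported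
representations of the functional at `x`. -/
lemma greedy (e : V → ι → K) (N : ℕ) : ∀ R : Finset V, N * Fintype.card ι < R.card →
    ∃ x ∈ R, ∃ c : Fin N → V → K, (∀ i z, c i z ≠ 0 → z ∈ R ∧ z ≠ x) ∧
      (∀ i j z, c i z ≠ 0 → c j z ≠ 0 → i = j) ∧ ∀ i, ∑ z, c i z • e z = e x := by
  classical
  induction N with
  | zero =>
    intro R hR
    obtain ⟨x, hx⟩ := card_pos.1 (by omega : 0 < R.card)
    exact ⟨x, hx, Fin.elim0, fun i => i.elim0, fun i => i.elim0, fun i => i.elim0⟩
  | succ N ih =>
    intro R hR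
    obtain ⟨B, hBR, hBc, hB⟩ := exists_small_span e R
    have hcard : N * Fintype.card ι < (R \ B).card := by
      rw [card_sdiff_of_subset hBR]
      have : (N + 1) * Fintype.card ι = N * Fintype.card ι + Fintype.card ι := by ring
      omega
    obtain ⟨x, hx, c, h1, h2, h3⟩ := ih (R \ B) hcard
    rw [mem_sdiff] at hx
    obtain ⟨c0, h4, h5⟩ := hB x hx.1
    refine ⟨x, hx.1, Fin.cons c0 c, ?_, ?_, ?_⟩
    · intro i
      refine Fin.cases ?_ (fun i => ?_) i
      · intro z hz
        rw [Fin.cons_zero] at hz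
        refine ⟨hBR (h4 z hz), ?_⟩
        rintro rfl
        exact hx.2 (h4 _ hz)
      · intro z hz
        rw [Fin.cons_succ] at hz
        exact ⟨(mem_sdiff.1 (h1 i z hz).1).1, (h1 i z hz).2⟩
    · intro i j z
      refine Fin.cases ?_ (fun i => ?_) i
      · refine Fin.cases ?_ (fun j => ?_) j
        · intro _ _
          rfl
        · intro hi hj
          rw [Fin.cons_zero] at hi
          rw [Fin.cons_succ] at hj
          exact absurd (h4 z hi) (mem_sdiff.1 (h1 j z hj).1).2
      · refine Fin.cases ?_ (fun j => ?_) j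
        · intro hi hj
          rw [Fin.cons_zero] at hj
          rw [Fin.cons_succ] at hi
          exact absurd (h4 z hj) (mem_sdiff.1 (h1 i z hi).1).2
        · intro hi hj
          rw [Fin.cons_succ] at hi hj
          rw [h2 i j z hi hj]
    · intro i
      refine Fin.cases ?_ (fun i => ?_) i
      · simpa using h5
      · simpa using h3 i

end Greedy

/-! ### The polynomial identity -/

section Vanish

variable {p : ℕ} {σ : Type*} [Fintype σ] [DecidableEq σ]

/-- Exponent patterns of one coordinate. -/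
noncomputable def pat (p : ℕ) (σ : Type*) [Fintype σ] [DecidableEq σ] : Finset (σ → ℕ) :=
  insert 0 (piAntidiag univ (p - 1))

/-- Coefficients of one coordinate. -/
noncomputable def coef (p : ℕ) (k : σ → ℕ) : ZMod p :=
  open Classical in
  if k = 0 then 1 else -((Nat.multinomial univ k : ℕ) : ZMod p)

lemma coord_expand (hp : 2 ≤ p) (z : σ → ZMod p) :
    1 - (∑ j, z j) ^ (p - 1) = ∑ k ∈ pat p σ, coef p k * ∏ j, z j ^ k j := by
  classical
  have h0 : (0 : σ → ℕ) ∉ piAntidiag (univ : Finset σ) (p - 1) := by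
    rw [mem_piAntidiag]
    rintro ⟨h, _⟩
    simp at h
    omega
  rw [pat, sum_insert h0, sum_pow_eq_sum_piAntidiag]
  have e1 : coef p (0 : σ → ℕ) = 1 := by simp [coef]
  have e2 : ∀ k ∈ piAntidiag (univ : Finset σ) (p - 1),
      coef p k * ∏ j, z j ^ k j =
        -(((Nat.multinomial univ k : ℕ) : ZMod p) * ∏ j, z j ^ k j) := by
    intro k hk
    have : k ≠ 0 := by rintro rfl; exact h0 hk
    rw [coef, if_neg this, neg_mul]
  rw [sum_congr rfl e2, e1, sum_neg_distrib]
  simp [sub_eq_add_neg]

lemma pat_sum_le (k : σ → ℕ) (hk : k ∈ pat p σ) : ∑ j, k j ≤ p - 1 := by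
  classical
  rw [pat, mem_insert, mem_piAntidiag] at hk
  rcases hk with rfl | ⟨h, _⟩
  · simp
  · exact h.le

lemma indicator [Fact p.Prime] (s : ZMod p) : 1 - s ^ (p - 1) = if s = 0 then 1 else 0 := by
  by_cases h : s = 0
  · subst h
    have : p - 1 ≠ 0 := by
      have := (Fact.out : p.Prime).two_le
      omega
    simp [this]
  · rw [if_neg h, ZMod.pow_card_sub_one_eq_one h, sub_self]

/-- Weights `μ i`, of which at least `p` kill all monomials of low degree: the sum over all tuples
with given sum vanishes. -/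
theorem vanish [Fact p.Prime] {n : ℕ} (P : Finset σ) (hP : P.card = p)
    (μ : σ → (Fin n → ZMod p) → ZMod p)
    (hμ : ∀ i ∈ P, ∀ m ∈ low p n, ∑ z, μ i z * ∏ c, z c ^ (m c : ℕ) = 0) (t : Fin n → ZMod p) :
    ∑ w : σ → (Fin n → ZMod p), (if ∑ i, w i = t then ∏ i, μ i (w i) else 0) = 0 := by
  classical
  have hp := (Fact.out : p.Prime).two_le
  -- the slots with the constant slot
  let Z : (σ → (Fin n → ZMod p)) → Fin n → Option σ → ZMod p := fun w c o =>
    o.elim (-(t c)) (fun i => w i c)
  have hZ : ∀ w c, ∑ o, Z w c o = (∑ i, w i) c - t c := by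
    intro w c
    rw [Fintype.sum_option, Finset.sum_apply]
    change -(t c) + ∑ i, w i c = _
    ring
  have h1 : ∀ w : σ → (Fin n → ZMod p), (if ∑ i, w i = t then ∏ i, μ i (w i) else 0) =
      ∑ E ∈ Fintype.piFinset (fun _ : Fin n => pat p (Option σ)),
        (∏ c, coef p (E c)) * (∏ c, (-(t c)) ^ E c none) *
          ∏ i, (μ i (w i) * ∏ c, (w i c) ^ E c (some i)) := by
    intro w
    have h2 : (if ∑ i, w i = t then (1 : ZMod p) else 0) = ∏ c, (1 - (∑ o, Z w c o) ^ (p - 1)) := by
      have e : ∀ c, (1 - (∑ o, Z w c o) ^ (p - 1)) =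
          if (∑ i, w i) c = t c then (1 : ZMod p) else 0 := by
        intro c
        rw [indicator, hZ]
        simp only [sub_eq_zero]
      rw [prod_congr rfl (fun c _ => e c)]
      by_cases hs : ∑ i, w i = t
      · rw [if_pos hs]
        symm
        apply prod_eq_one
        intro c _
        rw [if_pos (by rw [hs])]
      · rw [if_neg hs]
        obtain ⟨c, hc⟩ := Function.ne_iff.1 hs
        symm
        exact prod_eq_zero (mem_univ c) (if_neg hc)
    have h3 : (if ∑ i, w i = t then ∏ i, μ i (w i) else 0) =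
        (if ∑ i, w i = t then (1 : ZMod p) else 0) * ∏ i, μ i (w i) := by
      split_ifs <;> simp
    rw [h3, h2, prod_congr rfl (fun c _ => coord_expand hp (Z w c)), prod_univ_sum, sum_mul]
    apply sum_congr rfl
    intro E _
    rw [prod_mul_distrib, prod_mul_distrib, mul_assoc, mul_assoc]
    congr 1
    have h4 : ∀ c, ∏ o, Z w c o ^ E c o = (-(t c)) ^ E c none * ∏ i, (w i c) ^ E c (some i) := by
      intro c
      rw [Fintype.prod_option]
      rfl
    rw [prod_congr rfl (fun c _ => h4 c), prod_mul_distrib, mul_assoc]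
    congr 1
    rw [prod_comm, mul_comm]
  rw [sum_congr rfl (fun w _ => h1 w), sum_comm]
  apply sum_eq_zero
  intro E hE
  rw [Fintype.mem_piFinset] at hE
  rw [← mul_sum]
  have h5 : ∑ w : σ → (Fin n → ZMod p), ∏ i, (μ i (w i) * ∏ c, (w i c) ^ E c (some i)) =
      ∏ i, ∑ z, (μ i z * ∏ c, z c ^ E c (some i)) := by
    rw [prod_univ_sum, Fintype.piFinset_univ]
  rw [h5]
  -- a low slot
  obtain ⟨i, hi, hlow⟩ : ∃ i ∈ P, p * ∑ c, E c (some i) ≤ (p - 1) * n := by
    by_contra hcon
    push Not at hcon
    have h6 : ∑ _i ∈ P, (p - 1) * n < ∑ i ∈ P, p * ∑ c, E c (some i) := by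
      apply sum_lt_sum_of_nonempty
      · rw [← card_pos, hP]; omega
      · exact fun i hi => hcon i hi
    rw [sum_const, hP, smul_eq_mul, ← mul_sum] at h6
    have h7 : (p - 1) * n < ∑ i ∈ P, ∑ c, E c (some i) := Nat.lt_of_mul_lt_mul_left h6
    rw [sum_comm] at h7
    have h8 : ∑ c : Fin n, ∑ i ∈ P, E c (some i) ≤ ∑ _c : Fin n, (p - 1) := by
      apply sum_le_sum
      intro c _
      calc ∑ i ∈ P, E c (some i) ≤ ∑ i, E c (some i) :=
            sum_le_sum_of_subset_of_nonneg (subset_univ _) (fun _ _ _ => Nat.zero_le _)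
        _ ≤ ∑ o, E c o := by rw [Fintype.sum_option]; omega
        _ ≤ p - 1 := pat_sum_le _ (hE c)
    rw [sum_const, card_univ, Fintype.card_fin, smul_eq_mul, mul_comm] at h8
    omega
  have hlt : ∀ c, E c (some i) < p := by
    intro c
    have h6 := pat_sum_le _ (hE c)
    have h7 : E c (some i) ≤ ∑ o, E c o := single_le_sum (fun _ _ => Nat.zero_le _) (mem_univ _)
    omega
  have h9 := hμ i hi (fun c => ⟨E c (some i), hlt c⟩) (by
    rw [low, mem_filter]
    exact ⟨mem_univ _, hlow⟩)
  rw [prod_eq_zero (mem_univ i) h9, mul_zero]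

end Vanish

end Pool.Agent.EGZ4
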