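import Pool.Agent.EGZ4.Basic

/-!
# Zero sums of `p` distinct vectors of `F_p^n`: the main bound
-/

namespace Pool.Agent.EGZ4

open Finset

section Comb

/-- the number of `p`-subsets containing a given set -/
lemma card_supersets (N k : ℕ) (S : Finset (Fin N)) (hS : S.card ≤ k) :
    ((powersetCard k (univ : Finset (Fin N))).filter (fun P => S ⊆ P)).card =
      (N - S.card).choose (k - S.card) := by
  classical
  have h : (powersetCard k (univ : Finset (Fin N))).filter (fun P => S ⊆ P) =
      (powersetCard (k - S.card) Sᶜ).image (fun T => S ∪ T) := by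
    ext P
    rw [mem_filter, mem_powersetCard, mem_image]
    constructor
    · rintro ⟨⟨_, h1⟩, h2⟩
      refine ⟨P \ S, ?_, union_sdiff_of_subset h2⟩
      rw [mem_powersetCard]
      refine ⟨?_, ?_⟩
      · intro i hi
        rw [mem_compl]
        exact (mem_sdiff.1 hi).2
      · rw [card_sdiff_of_subset h2, h1]
    · rintro ⟨T, hT, rfl⟩
      rw [mem_powersetCard] at hT
      have hd : Disjoint S T := by
        rw [disjoint_left]
        intro i hi hi'
        exact (mem_compl.1 (hT.1 hi')) hi
      refine ⟨⟨subset_univ _, ?_⟩, subset_union_left⟩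
      rw [card_union_of_disjoint hd, hT.2]
      omega
  rw [h, card_image_of_injOn, card_powersetCard, card_compl, Fintype.card_fin]
  intro T hT T' hT' he
  rw [mem_coe, mem_powersetCard] at hT hT'
  have key : ∀ U : Finset (Fin N), U ⊆ Sᶜ → (S ∪ U) \ S = U := by
    intro U hU
    rw [union_sdiff_left]
    exact sdiff_eq_self_of_disjoint (by
      rw [disjoint_left]
      intro i hi hi'
      exact (mem_compl.1 (hU hi)) hi')
  rw [← key T hT.1, ← key T' hT'.1]
  change (fun T => S ∪ T) T \ S = (fun T => S ∪ T) T' \ S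
  rw [he]

/-- Combinatorial identity modulo `p`. -/
lemma comb {p : ℕ} [Fact p.Prime] (g : Finset (Fin (2 * p - 2)) → ZMod p)
    (hsum : ∀ P : Finset (Fin (2 * p - 2)), P.card = p →
      ∑ S ∈ P.powerset, (-1) ^ S.card * g S = 0)
    (htop : ∀ S : Finset (Fin (2 * p - 2)), p ≤ S.card + 1 → S.card ≤ p → g S = 0) : g ∅ = 0 := by
  classical
  have hp := (Fact.out : p.Prime)
  have hp2 := hp.two_le
  have h1 : ∑ P ∈ powersetCard p (univ : Finset (Fin (2 * p - 2))),
      ∑ S ∈ P.powerset, (-1) ^ S.card * g S = 0 :=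
    sum_eq_zero fun P hP => hsum P (mem_powersetCard.1 hP).2
  have h2 : ∑ P ∈ powersetCard p (univ : Finset (Fin (2 * p - 2))),
      ∑ S ∈ P.powerset, (-1) ^ S.card * g S =
      ∑ S : Finset (Fin (2 * p - 2)), ∑ P ∈ (powersetCard p (univ : Finset (Fin (2 * p - 2)))).filter
        (fun P => S ⊆ P), (-1) ^ S.card * g S := by
    apply sum_comm'
    intro P S
    rw [mem_filter, mem_powerset]
    simp
  rw [h2, ← add_sum_erase _ _ (mem_univ (∅ : Finset (Fin (2 * p - 2))))] at h1
  have h3 : ∑ S ∈ (univ : Finset (Finset (Fin (2 * p - 2)))).erase ∅,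
      ∑ P ∈ (powersetCard p (univ : Finset (Fin (2 * p - 2)))).filter
        (fun P => S ⊆ P), (-1) ^ S.card * g S = 0 := by
    apply sum_eq_zero
    intro S hS
    rw [sum_const]
    have hS0 : 0 < S.card := card_pos.2 (nonempty_iff_ne_empty.2 (ne_of_mem_erase hS))
    rcases lt_or_ge p S.card with h4 | h4
    · have : (powersetCard p (univ : Finset (Fin (2 * p - 2)))).filter (fun P => S ⊆ P) = ∅ := by
        rw [filter_eq_empty_iff]
        intro P hP hSP
        have := card_le_card hSP
        rw [(mem_powersetCard.1 hP).2] at this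
        omega
      rw [this, card_empty, zero_smul]
    · rcases lt_or_ge (S.card + 1) p with h5 | h5
      · rw [card_supersets _ _ _ h4]
        have h6 : p ∣ (2 * p - 2 - S.card).choose (p - S.card) :=
          hp.dvd_choose (by omega) (by omega) (by omega)
        rw [nsmul_eq_mul, (ZMod.natCast_eq_zero_iff _ _).2 h6, zero_mul]
      · rw [htop S h5 h4, mul_zero, smul_zero]
  rw [h3, add_zero, sum_const, card_supersets _ _ _ (by simp), card_empty, pow_zero, one_mul,
    Nat.sub_zero, Nat.sub_zero, nsmul_eq_mul] at h1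
  have h7 : ((2 * p - 2).choose p : ZMod p) = 1 := by
    have h8 := Choose.choose_modEq_choose_mod_mul_choose_div_nat (n := 2 * p - 2) (k := p) (p := p)
    have h9 : (2 * p - 2) % p = p - 2 := by
      have : 2 * p - 2 = p - 2 + p := by omega
      rw [this, Nat.add_mod_right, Nat.mod_eq_of_lt (by omega)]
    have h10 : (2 * p - 2) / p = 1 := by
      have : 2 * p - 2 = p - 2 + p := by omega
      rw [this, Nat.add_div_right _ (by omega), Nat.div_eq_of_lt (by omega)]
    rw [h9, h10, Nat.mod_self, Nat.div_self (by omega), Nat.choose_zero_right, Nat.choose_self] at h8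
    have h11 := (ZMod.natCast_eq_natCast_iff _ _ _).2 h8
    simpa using h11
  rwa [h7, one_mul] at h1

end Comb

section Terms

variable {p n N : ℕ} [Fact p.Prime]

/-- Indicator of `x`. -/
noncomputable def del (x z : Fin n → ZMod p) : ZMod p := if z = x then 1 else 0

/-- The term of the index set `S`. -/
noncomputable def g (x : Fin n → ZMod p) (c : Fin N → (Fin n → ZMod p) → ZMod p)
    (S : Finset (Fin N)) : ZMod p :=
  ∑ w : Fin N → (Fin n → ZMod p), (if ∑ i, w i = N • x then
    (∏ i ∈ S, c i (w i)) * ∏ i ∈ Sᶜ, del x (w i) else 0)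

lemma del_ne {x z : Fin n → ZMod p} (h : del x z ≠ 0) : z = x := by
  by_contra hne
  exact h (if_neg hne)

/-- Expansion of the vanishing sum. -/
lemma expand (x : Fin n → ZMod p) (c : Fin N → (Fin n → ZMod p) → ZMod p)
    (hc : ∀ i, ∀ m ∈ low p n, ∑ z, c i z * ∏ j, z j ^ (m j : ℕ) = ∏ j, x j ^ (m j : ℕ))
    (P : Finset (Fin N)) (hP : P.card = p) :
    ∑ S ∈ P.powerset, (-1) ^ S.card * g x c S = 0 := by
  classical
  let μ : Fin N → (Fin n → ZMod p) → ZMod p := fun i z =>
    if i ∈ P then del x z - c i z else del x z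
  have hμ : ∀ i ∈ P, ∀ m ∈ low p n, ∑ z, μ i z * ∏ j, z j ^ (m j : ℕ) = 0 := by
    intro i hi m hm
    have e : ∀ z, μ i z * ∏ j, z j ^ (m j : ℕ) =
        del x z * ∏ j, z j ^ (m j : ℕ) - c i z * ∏ j, z j ^ (m j : ℕ) := by
      intro z
      simp only [μ, if_pos hi]
      ring
    rw [sum_congr rfl (fun z _ => e z), sum_sub_distrib, hc i m hm,
      sum_eq_single x, del, if_pos rfl, one_mul, sub_self]
    · intro z _ hz
      rw [del, if_neg hz, zero_mul]
    · intro h
      exact absurd (mem_univ _) h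
  have h1 := vanish P hP μ hμ (N • x)
  rw [← h1]
  have h2 : ∀ w : Fin N → (Fin n → ZMod p), ∏ i, μ i (w i) =
      ∑ S ∈ P.powerset, (-1) ^ S.card * ((∏ i ∈ S, c i (w i)) * ∏ i ∈ Sᶜ, del x (w i)) := by
    intro w
    have h3 : ∏ i, μ i (w i) = (∏ i ∈ P, (-c i (w i) + del x (w i))) * ∏ i ∈ Pᶜ, del x (w i) := by
      rw [← prod_mul_prod_compl P]
      congr 1
      · apply prod_congr rfl
        intro i hi
        simp only [μ, if_pos hi]
        ring
      · apply prod_congr rfl
        intro i hi
        simp only [μ, if_neg (mem_compl.1 hi)]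
    rw [h3, prod_add, sum_mul]
    apply sum_congr rfl
    intro S hS
    rw [mem_powerset] at hS
    have h4 : (∏ i ∈ P \ S, del x (w i)) * ∏ i ∈ Pᶜ, del x (w i) = ∏ i ∈ Sᶜ, del x (w i) := by
      rw [← prod_union]
      · congr 1
        ext i
        rw [mem_union, mem_sdiff, mem_compl, mem_compl]
        constructor
        · rintro (h | h)
          · exact h.2
          · exact fun h' => h (hS h')
        · intro h
          by_cases hi : i ∈ P
          · exact Or.inl ⟨hi, h⟩
          · exact Or.inr hi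
      · rw [disjoint_left]
        intro i hi hi'
        exact (mem_compl.1 hi') (mem_sdiff.1 hi).1
    have h5 : ∏ i ∈ S, (-c i (w i)) = (-1) ^ S.card * ∏ i ∈ S, c i (w i) := by
      rw [← prod_const, ← prod_mul_distrib]
      apply prod_congr rfl
      intro i _
      ring
    rw [h5, mul_assoc, h4, mul_assoc]
  have h6 : ∀ w : Fin N → (Fin n → ZMod p), (if ∑ i, w i = N • x then ∏ i, μ i (w i) else 0) =
      ∑ S ∈ P.powerset, (-1) ^ S.card * (if ∑ i, w i = N • x then
        (∏ i ∈ S, c i (w i)) * ∏ i ∈ Sᶜ, del x (w i) else 0) := by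
    intro w
    by_cases hw : ∑ i, w i = N • x
    · simp only [if_pos hw]
      exact h2 w
    · simp only [if_neg hw, mul_zero, sum_const_zero]
  rw [sum_congr rfl (fun w _ => h6 w), sum_comm]
  apply sum_congr rfl
  intro S _
  rw [g, mul_sum]

lemma g_empty (x : Fin n → ZMod p) (c : Fin N → (Fin n → ZMod p) → ZMod p) : g x c ∅ = 1 := by
  classical
  rw [g, sum_eq_single (fun _ => x)]
  · rw [if_pos (by rw [sum_const, card_univ, Fintype.card_fin]), prod_empty, one_mul]
    apply prod_eq_one
    intro i _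
    rw [del, if_pos rfl]
  · intro w _ hw
    obtain ⟨i, hi⟩ := Function.ne_iff.1 hw
    split_ifs
    · rw [prod_empty, one_mul]
      exact prod_eq_zero (mem_compl.2 (notMem_empty i)) (if_neg hi)
    · rfl
  · intro h
    exact absurd (mem_univ _) h

/-- A nonzero term gives elements. -/
lemma g_ne_zero {x : Fin n → ZMod p} {c : Fin N → (Fin n → ZMod p) → ZMod p}
    {S : Finset (Fin N)} (h : g x c S ≠ 0) :
    ∃ w : Fin N → (Fin n → ZMod p), (∀ i ∈ S, c i (w i) ≠ 0) ∧ ∑ i ∈ S, w i = S.card • x := by
  classical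
  obtain ⟨w, _, hw⟩ := exists_ne_zero_of_sum_ne_zero h
  have h1 : ∑ i, w i = N • x := by
    by_contra hne
    exact hw (if_neg hne)
  rw [if_pos h1] at hw
  have h2 := left_ne_zero_of_mul hw
  have h3 := right_ne_zero_of_mul hw
  rw [prod_ne_zero_iff] at h2 h3
  refine ⟨w, h2, ?_⟩
  have h4 : ∑ i ∈ Sᶜ, w i = Sᶜ.card • x := by
    rw [← sum_const]
    exact sum_congr rfl fun i hi => del_ne (h3 i hi)
  have h5 : S.card + Sᶜ.card = N := by
    rw [card_add_card_compl, Fintype.card_fin]
  have h6 := sum_add_sum_compl S w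
  have h7 : N • x = S.card • x + Sᶜ.card • x := by rw [← add_smul, h5]
  rw [h1, h4, h7] at h6
  exact add_right_cancel h6

end Terms

/-- **Main bound.** A set without `p` distinct elements of sum zero has at most
`(2p-2) * card (low p n)` elements. -/
theorem main {p : ℕ} [Fact p.Prime] {n : ℕ} (X : Finset (Fin n → ZMod p))
    (hX : ∀ Z ⊆ X, Z.card = p → ∑ z ∈ Z, z ≠ 0) :
    X.card ≤ (2 * p - 2) * (low p n).card := by
  classical
  have hp := (Fact.out : p.Prime)
  have hp2 := hp.two_le
  by_contra hcon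
  push Not at hcon
  obtain ⟨x, hxX, c, h1, h2, h3⟩ := greedy (K := ZMod p) (ι := low p n)
    (fun z m => ∏ j, z j ^ (m.1 j : ℕ)) (2 * p - 2) X (by rwa [Fintype.card_coe])
  have hc : ∀ i, ∀ m ∈ low p n, ∑ z, c i z * ∏ j, z j ^ (m j : ℕ) = ∏ j, x j ^ (m j : ℕ) := by
    intro i m hm
    have h4 := congrFun (h3 i) ⟨m, hm⟩
    rw [Finset.sum_apply] at h4
    simpa using h4
  have hpx : (p : ℕ) • x = 0 := by
    funext j
    rw [Pi.smul_apply, nsmul_eq_mul, ZMod.natCast_self, zero_mul, Pi.zero_apply]
  have htop : ∀ S : Finset (Fin (2 * p - 2)), p ≤ S.card + 1 → S.card ≤ p → g x c S = 0 := by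
    intro S hS1 hS2
    by_contra hne
    obtain ⟨w, hw1, hw2⟩ := g_ne_zero hne
    have hinj : Set.InjOn w S := by
      intro i hi j hj hij
      exact h2 i j (w i) (hw1 i hi) (by rw [hij]; exact hw1 j hj)
    have hsum : ∑ z ∈ S.image w, z = S.card • x := by
      rw [sum_image hinj, hw2]
    have hsub : S.image w ⊆ X := by
      intro z hz
      obtain ⟨i, hi, rfl⟩ := mem_image.1 hz
      exact (h1 i _ (hw1 i hi)).1
    rcases Nat.lt_or_ge S.card p with h5 | h5
    · have hxn : x ∉ S.image w := by
        intro hx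
        obtain ⟨i, hi, he⟩ := mem_image.1 hx
        exact (h1 i _ (hw1 i hi)).2 he
      refine hX (insert x (S.image w)) (insert_subset hxX hsub) ?_ ?_
      · rw [card_insert_of_notMem hxn, card_image_of_injOn hinj]
        omega
      · rw [sum_insert hxn, hsum, ← succ_nsmul']
        have : S.card + 1 = p := by omega
        rw [this, hpx]
    · refine hX (S.image w) hsub ?_ ?_
      · rw [card_image_of_injOn hinj]
        omega
      · have : S.card = p := by omega
        rw [hsum, this, hpx]
  have h4 := comb (g x c) (expand x c hc) htop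
  rw [g_empty] at h4
  exact one_ne_zero h4

end Pool.Agent.EGZ4

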