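import Pool.Agent.EGZ4.Main

/-!
# Zero-sum subsequences of length `p` of sequences over `F_p^n`
-/

namespace Pool.Agent.EGZ4

open Finset

/-- **Sequence version.** Every family of more than `(2p-2) * card (low p n)` vectors of `F_p^n` has
a subfamily of `p` members with sum zero. -/
theorem seq_main {p : ℕ} [Fact p.Prime] {n : ℕ} {V : Type*} [Fintype V] [DecidableEq V]
    (x : V → (Fin n → ZMod p)) (h : (2 * p - 2) * (low p n).card < Fintype.card V) :
    ∃ Z : Finset V, Z.card = p ∧ ∑ z ∈ Z, x z = 0 := by
  classical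
  have hp := (Fact.out : p.Prime)
  have hp2 := hp.two_le
  by_contra hcon
  push Not at hcon
  obtain ⟨v0, _, c, h1, h2, h3⟩ := greedy (K := ZMod p) (ι := low p n)
    (fun v m => ∏ j, x v j ^ (m.1 j : ℕ)) (2 * p - 2) univ
    (by rwa [Fintype.card_coe, card_univ])
  let c' : Fin (2 * p - 2) → (Fin n → ZMod p) → ZMod p := fun i z =>
    ∑ v, if x v = z then c i v else 0
  have hc : ∀ i, ∀ m ∈ low p n,
      ∑ z, c' i z * ∏ j, z j ^ (m j : ℕ) = ∏ j, x v0 j ^ (m j : ℕ) := by
    intro i m hm
    have h4 := congrFun (h3 i) ⟨m, hm⟩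
    rw [Finset.sum_apply] at h4
    have h5 : ∑ z, c' i z * ∏ j, z j ^ (m j : ℕ) = ∑ v, c i v * ∏ j, x v j ^ (m j : ℕ) := by
      simp only [c', sum_mul]
      rw [sum_comm]
      apply sum_congr rfl
      intro v _
      rw [sum_eq_single (x v)]
      · rw [if_pos rfl]
      · intro z _ hz
        rw [if_neg hz.symm, zero_mul]
      · intro h'
        exact absurd (mem_univ _) h'
    rw [h5]
    simpa using h4
  have hpx : ∀ y : Fin n → ZMod p, (p : ℕ) • y = 0 := by
    intro y
    funext j
    rw [Pi.smul_apply, nsmul_eq_mul, ZMod.natCast_self, zero_mul, Pi.zero_apply]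
  have htop : ∀ S : Finset (Fin (2 * p - 2)), p ≤ S.card + 1 → S.card ≤ p →
      g (x v0) c' S = 0 := by
    intro S hS1 hS2
    by_contra hne
    obtain ⟨w, hw1, hw2⟩ := g_ne_zero hne
    have hv : ∀ i : Fin (2 * p - 2), ∃ v : V, i ∈ S → x v = w i ∧ c i v ≠ 0 := by
      intro i
      by_cases hi : i ∈ S
      · obtain ⟨v, _, hv⟩ := exists_ne_zero_of_sum_ne_zero (hw1 i hi)
        refine ⟨v, fun _ => ?_⟩
        by_cases hxv : x v = w i
        · rw [if_pos hxv] at hv
          exact ⟨hxv, hv⟩
        · rw [if_neg hxv] at hv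
          exact absurd rfl hv
      · exact ⟨v0, fun h' => absurd h' hi⟩
    choose u hu using hv
    have hinj : Set.InjOn u S := by
      intro i hi j hj hij
      exact h2 i j (u i) (hu i hi).2 (by rw [hij]; exact (hu j hj).2)
    have hsum : ∑ z ∈ S.image u, x z = S.card • x v0 := by
      rw [sum_image hinj, ← hw2]
      exact sum_congr rfl fun i hi => (hu i hi).1
    rcases Nat.lt_or_ge S.card p with h5 | h5
    · have hxn : v0 ∉ S.image u := by
        intro hx
        obtain ⟨i, hi, he⟩ := mem_image.1 hx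
        exact (h1 i _ (hu i hi).2).2 he
      refine hcon (insert v0 (S.image u)) ?_ ?_
      · rw [card_insert_of_notMem hxn, card_image_of_injOn hinj]
        omega
      · rw [sum_insert hxn, hsum, ← succ_nsmul']
        have : S.card + 1 = p := by omega
        rw [this, hpx]
    · refine hcon (S.image u) ?_ ?_
      · rw [card_image_of_injOn hinj]
        omega
      · have : S.card = p := by omega
        rw [hsum, this, hpx]
  have h4 := comb (g (x v0) c') (expand (x v0) c' hc) htop
  rw [g_empty] at h4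
  exact one_ne_zero h4

end Pool.Agent.EGZ4
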